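import Mathlib

namespace Pool.Agent.Results.MP_b6277e_co.AllSAP
open Set Filter Topology Polynomial

/-- the sign pattern `T₂ ⊕ T₂` -/
def T : Matrix (Fin 4) (Fin 4) SignType := !![1, 1, 0, 0; -1, -1, 0, 0; 0, 0, 1, 1; 0, 0, -1, -1]

/-- every monic real quartic is the characteristic polynomial of a realization of `P` -/
def SpecArb (P : Matrix (Fin 4) (Fin 4) SignType) : Prop :=
  ∀ q : ℝ[X], q.Monic → q.natDegree = 4 →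
    ∃ A : Matrix (Fin 4) (Fin 4) ℝ, (∀ i j, SignType.sign (A i j) = P i j) ∧ A.charpoly = q

lemma ivt {f : ℝ → ℝ} (hf : Continuous f) {a b : ℝ} (h : a ≤ b) (h1 : f a ≤ 0) (h2 : 0 ≤ f b) :
    ∃ y ∈ Icc a b, f y = 0 := intermediate_value_Icc h hf.continuousOn ⟨h1, h2⟩

lemma solve {y₀ Y w n : ℝ} {g₀ g₁ N₁ : ℝ → ℝ} (h : y₀ < Y) (hw : 0 < w) (c₀ : Continuous g₀)
    (c₁ : Continuous g₁) (c₂ : Continuous N₁)
    (hF : 0 < (2 * (Y - y₀)) ^ 2 * g₀ Y + g₁ Y * (2 * (Y - y₀)) * (n + (Y - y₀) * N₁ Y) -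
      w * (n + (Y - y₀) * N₁ Y) ^ 2) :
    ∃ y ∈ Icc y₀ Y, ∃ z, 2 * (y - y₀) * z = n + (y - y₀) * N₁ y ∧ g₀ y + g₁ y * z - w * z ^ 2 = 0 := by
  by_cases hn : n = 0
  · subst hn
    by_cases h0 : g₀ y₀ + g₁ y₀ * (N₁ y₀ / 2) - w * (N₁ y₀ / 2) ^ 2 ≤ 0
    · obtain ⟨y, hy, e⟩ := ivt (f := fun y => g₀ y + g₁ y * (N₁ y / 2) - w * (N₁ y / 2) ^ 2)
        (by fun_prop) h.le h0 (by
          refine le_of_mul_le_mul_left ?_ (pow_pos (sub_pos.2 h) 2)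
          linarith)
      exact ⟨y, hy, _, by ring, e⟩
    · have : discrim (-w) (g₁ y₀) (g₀ y₀) ≥ 0 := by
        unfold discrim
        nlinarith [sq_nonneg (g₁ y₀ - w * N₁ y₀)]
      obtain ⟨z, hz⟩ := exists_quadratic_eq_zero (neg_ne_zero.2 hw.ne') ⟨_, (Real.mul_self_sqrt this).symm⟩
      exact ⟨y₀, ⟨le_rfl, h.le⟩, z, by ring, by linarith⟩
  · obtain ⟨y, hy, e⟩ := ivt (f := fun y => (2 * (y - y₀)) ^ 2 * g₀ y +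
      g₁ y * (2 * (y - y₀)) * (n + (y - y₀) * N₁ y) - w * (n + (y - y₀) * N₁ y) ^ 2)
        (by fun_prop) h.le (by simp; positivity) hF.le
    have hy0 : y - y₀ ≠ 0 := fun h0 => by
      simp [h0, hw.ne', hn] at e
    refine ⟨y, hy, (n + (y - y₀) * N₁ y) / (2 * (y - y₀)), by field_simp, ?_⟩
    field_simp
    linarith

section
variable (s q₂ q₁ q₀ b₁ b₂ b₃ b₄ c₁ c₂ c₃ c₄ α : ℝ)

noncomputable def m (δ y : ℝ) : ℝ :=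
  (q₂ + δ * (b₁ * c₁ + b₂ * c₃ + b₃ * c₂ + b₄ * c₄) - s ^ 2 + y ^ 2) / 2

def Δ (δ a v a' v' x : ℝ) : ℝ :=
  ((x - a) * (x + α) + v) * ((x - a') * (x + α) + v') +
    δ ^ 2 * ((b₁ * b₄ - b₂ * b₃) * (c₁ * c₄ - c₂ * c₃))
     - δ * ((((x + α) * b₁ + b₃) * (x + α) - ((x + α) * b₂ + b₄) * v') * c₁ +
        (((x + α) * b₁ + b₃) + ((x + α) * b₂ + b₄) * (x - a')) * c₃ +
        ((-v * b₁ + (x - a) * b₃) * (x + α) - (-v * b₂ + (x - a) * b₄) * v') * c₂ +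
        ((-v * b₁ + (x - a) * b₃) + (-v * b₂ + (x - a) * b₄) * (x - a')) * c₄)

lemma det_eq (δ a v a' v' x : ℝ) :
    (!![x - a, -1, -b₁, -b₂; v, x + α, -b₃, -b₄; -(δ * c₁), -(δ * c₂), x - a', -1;
        -(δ * c₃), -(δ * c₄), v', x + α]).det = Δ b₁ b₂ b₃ b₄ c₁ c₂ c₃ c₄ α δ a v a' v' x := by
  simp [Matrix.det_succ_row_zero, Fin.sum_univ_succ, Fin.succAbove, Δ]; ring

noncomputable def D (δ y z x : ℝ) : ℝ := Δ b₁ b₂ b₃ b₄ c₁ c₂ c₃ c₄ α δ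
  (α - s - y) (m s q₂ b₁ b₂ b₃ b₄ c₁ c₂ c₃ c₄ δ y + z + (α - s - y) * α)
  (α - s + y) (m s q₂ b₁ b₂ b₃ b₄ c₁ c₂ c₃ c₄ δ y - z + (α - s + y) * α) x

lemma cD (z x : ℝ) : Continuous fun p : ℝ × ℝ => D s q₂ b₁ b₂ b₃ b₄ c₁ c₂ c₃ c₄ α p.1 p.2 z x := by
  unfold D Δ m; fun_prop

lemma D0 (y z x : ℝ) : D s q₂ b₁ b₂ b₃ b₄ c₁ c₂ c₃ c₄ α 0 y z x =
    (x ^ 2 + (s + y) * x + m s q₂ b₁ b₂ b₃ b₄ c₁ c₂ c₃ c₄ 0 y + z) *
      (x ^ 2 + (s - y) * x + m s q₂ b₁ b₂ b₃ b₄ c₁ c₂ c₃ c₄ 0 y - z) := by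
  unfold D Δ; ring

lemma Dx (δ y z x : ℝ) (E : ℝ → ℝ → ℝ) (hE : E = D s q₂ b₁ b₂ b₃ b₄ c₁ c₂ c₃ c₄ α δ y) :
    E z x = x ^ 4 + 2 * s * x ^ 3 + q₂ * x ^ 2 + ((E 0 1 - E 0 (-1)) / 2 - 2 * s -
      2 * (y - δ * (b₁ * c₂ + b₂ * c₄ - c₁ * b₂ - c₂ * b₄) / 2) * z) * x +
      (E 0 0 + (E 1 0 - E (-1) 0) / 2 * z - (1 - δ * (b₂ * c₂)) * z ^ 2) := by
  subst hE; unfold D Δ m; ring

lemma Ny (δ y t : ℝ) (N : ℝ → ℝ) (hN : N = fun y => (D s q₂ b₁ b₂ b₃ b₄ c₁ c₂ c₃ c₄ α δ y 0 1 -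
      D s q₂ b₁ b₂ b₃ b₄ c₁ c₂ c₃ c₄ α δ y 0 (-1)) / 2 - 2 * s - q₁) :
    N y = N t + (y - t) * ((N 1 - N (-1)) / 2 + ((N 1 + N (-1)) / 2 - N 0) * (y + t)) := by
  subst hN; unfold D Δ m; ring
end

lemma ar1 {s q₂ q₁ q₀ Y t : ℝ} (hY : Y = 2 * s ^ 2 + 2 + 2 * |q₂| + 16 * |q₀| + 8 * q₁ ^ 2)
    (ht : t = (q₂ - s ^ 2 + Y ^ 2) / 2) :
    0 < (2 * Y) ^ 2 * (t ^ 2 - q₀) - (2 * s * t - q₁) ^ 2 := by
  have p2 := abs_le.1 (le_refl |q₂|)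
  have p0 := abs_le.1 (le_refl |q₀|)
  have s2 := sq_nonneg s
  have s1 := sq_nonneg q₁
  have Y1 : 2 ≤ Y := by linarith
  have a3 : Y ≤ Y ^ 2 := by nlinarith
  have a4 : Y ^ 2 / 4 ≤ t := by linarith
  have a5 := pow_le_pow_left₀ (by positivity) a4 2
  have a6 : (2 * s ^ 2 + 1) * t ^ 2 ≤ Y ^ 2 * t ^ 2 :=
    mul_le_mul_of_nonneg_right (by linarith) (sq_nonneg _)
  have a7 : Y ^ 2 * (16 * q₀ + 8 * q₁ ^ 2 + 1) ≤ Y ^ 2 * Y ^ 2 :=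
    mul_le_mul_of_nonneg_left (by linarith) (sq_nonneg _)
  have a8 : 1 * q₁ ^ 2 ≤ Y ^ 2 * q₁ ^ 2 := mul_le_mul_of_nonneg_right (by linarith) (sq_nonneg _)
  linarith [sq_nonneg (2 * s * t + q₁)]

lemma ar2 {g h w z K : ℝ} (K0 : 1 ≤ K) (k2 : g < K) (k3 : |h| < 1) (h3 : 1 / 2 < w)
    (z2 : g + h * z - w * z ^ 2 = 0) : |z| ≤ 2 * K + 2 := by
  by_contra hh
  have u1 : h * z ≤ |z| := (le_abs_self _).trans (by
    rw [abs_mul]; exact mul_le_of_le_one_left (abs_nonneg _) k3.le)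
  rw [← sq_abs z] at z2
  nlinarith [mul_le_mul_of_nonneg_right h3.le (sq_nonneg |z|)]

lemma core (s q₂ q₁ q₀ b₁ b₂ b₃ b₄ c₁ c₂ c₃ c₄ : ℝ) : ∃ a v a' v' α δ : ℝ,
    0 < a ∧ 0 < v ∧ 0 < a' ∧ 0 < v' ∧ 0 < α ∧ 0 < δ ∧ ∀ x : ℝ,
      Δ b₁ b₂ b₃ b₄ c₁ c₂ c₃ c₄ α δ a v a' v' x
        = x ^ 4 + 2 * s * x ^ 3 + q₂ * x ^ 2 + q₁ * x + q₀ := by
  obtain ⟨Y, hY⟩ : ∃ Y, Y = 2 * s ^ 2 + 2 + 2 * |q₂| + 16 * |q₀| + 8 * q₁ ^ 2 := ⟨_, rfl⟩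
  obtain ⟨M, hM⟩ : ∃ M, M = |q₂| + s ^ 2 + Y ^ 2 + 1 := ⟨_, rfl⟩
  obtain ⟨K, hK⟩ : ∃ K, K = M ^ 2 + |q₀| + 1 := ⟨_, rfl⟩
  obtain ⟨α, hα⟩ : ∃ α, α = |s| + Y + M + 2 * K + 4 := ⟨_, rfl⟩
  have p2 := abs_le.1 (le_refl |q₂|)
  have p0 := abs_le.1 (le_refl |q₀|)
  have ps := abs_le.1 (le_refl |s|)
  have s2 := sq_nonneg s
  have Y1 : 2 ≤ Y := by linarith [sq_nonneg q₁]
  have cm : Continuous fun p : ℝ × ℝ => m s q₂ b₁ b₂ b₃ b₄ c₁ c₂ c₃ c₄ p.1 p.2 := by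
    unfold m; fun_prop
  have m0 : ∀ y, m s q₂ b₁ b₂ b₃ b₄ c₁ c₂ c₃ c₄ 0 y = (q₂ - s ^ 2 + y ^ 2) / 2 := fun y => by
    unfold m; ring
  have cE := cD s q₂ b₁ b₂ b₃ b₄ c₁ c₂ c₃ c₄ α
  have E0 := D0 s q₂ b₁ b₂ b₃ b₄ c₁ c₂ c₃ c₄ α
  have Ex := fun δ y z x => Dx s q₂ b₁ b₂ b₃ b₄ c₁ c₂ c₃ c₄ α δ y z x _ rfl
  have EN := fun δ y t => Ny s q₂ q₁ b₁ b₂ b₃ b₄ c₁ c₂ c₃ c₄ α δ y t _ rfl
  have Ed : ∀ δ y z x, D s q₂ b₁ b₂ b₃ b₄ c₁ c₂ c₃ c₄ α δ y z x = Δ b₁ b₂ b₃ b₄ c₁ c₂ c₃ c₄ α δ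
    (α - s - y) (m s q₂ b₁ b₂ b₃ b₄ c₁ c₂ c₃ c₄ δ y + z + (α - s - y) * α)
    (α - s + y) (m s q₂ b₁ b₂ b₃ b₄ c₁ c₂ c₃ c₄ δ y - z + (α - s + y) * α) x := fun _ _ _ _ => rfl
  generalize D s q₂ b₁ b₂ b₃ b₄ c₁ c₂ c₃ c₄ α = E at *
  generalize m s q₂ b₁ b₂ b₃ b₄ c₁ c₂ c₃ c₄ = μ at *
  generalize b₁ * c₂ + b₂ * c₄ - c₁ * b₂ - c₂ * b₄ = κ at *
  generalize b₂ * c₂ = ρ at *
  have e1 : ∀ᶠ δ in 𝓝 (0 : ℝ), ∀ y ∈ Icc (-Y) Y, |μ δ y| < M ∧ E δ y 0 0 - q₀ < K ∧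
      |(E δ y 1 0 - E δ y (-1) 0) / 2| < 1 := by
    refine isCompact_Icc.eventually_forall_of_forall_eventually fun y hy => ?_
    have hy2 : y ^ 2 ≤ Y ^ 2 := sq_le_sq' hy.1 hy.2
    have a1 : |μ 0 y| < M := by
      rw [m0, abs_lt]; constructor <;> linarith [sq_nonneg y]
    refine (cm.abs.continuousAt.eventually_lt continuousAt_const a1).and
      ((((cE 0 0).sub continuous_const).continuousAt.eventually_lt continuousAt_const ?_).and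
        ((((cE 1 0).sub (cE (-1) 0)).div_const 2).abs.continuousAt.eventually_lt
          continuousAt_const ?_))
    · have := sq_lt_sq' (abs_lt.1 a1).1 (abs_lt.1 a1).2
      show E 0 y 0 0 - q₀ < K
      rw [E0]; linarith
    · show |(E 0 y 1 0 - E 0 y (-1) 0) / 2| < 1
      rw [E0, E0]; ring_nf; simp
  have cY : ∀ z x, Continuous fun δ => E δ Y z x := fun z x =>
    (cE z x).comp (Continuous.prodMk_left Y)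
  have cδ : ∀ δ z x, Continuous fun y => E δ y z x := fun δ z x =>
    (cE z x).comp (Continuous.prodMk_right δ)
  have e2 : ∀ᶠ δ in 𝓝 (0 : ℝ), |δ * κ / 2| < Y ∧ 1 / 2 < 1 - δ * ρ ∧
      0 < (2 * (Y - δ * κ / 2)) ^ 2 * (E δ Y 0 0 - q₀) + (E δ Y 1 0 - E δ Y (-1) 0) / 2 *
        (2 * (Y - δ * κ / 2)) * ((E δ Y 0 1 - E δ Y 0 (-1)) / 2 - 2 * s - q₁) -
        (1 - δ * ρ) * ((E δ Y 0 1 - E δ Y 0 (-1)) / 2 - 2 * s - q₁) ^ 2 := by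
    refine (ContinuousAt.eventually_lt (by fun_prop) continuousAt_const
      (by simp; linarith)).and ((continuousAt_const.eventually_lt (by fun_prop) (by norm_num)).and
        (continuousAt_const.eventually_lt (by fun_prop) ?_))
    have := ar1 hY (m0 Y)
    simp only [E0]
    linarith
  obtain ⟨δ, ⟨h1, h2, h3, h4⟩, hδ⟩ := (((e1.and e2).filter_mono nhdsWithin_le_nhds).and
    (self_mem_nhdsWithin (a := (0 : ℝ)) (s := Ioi 0))).exists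
  rw [EN δ Y (δ * κ / 2)] at h4
  obtain ⟨y, hy, z, z1, z2⟩ := solve (g₀ := fun y => E δ y 0 0 - q₀)
    (g₁ := fun y => (E δ y 1 0 - E δ y (-1) 0) / 2) (N₁ := fun y => _ + _ * (y + δ * κ / 2))
    (abs_lt.1 h2).2 (by linarith) (by fun_prop) (by fun_prop) (by fun_prop) h4
  rw [← EN] at z1
  have y1 : -Y ≤ y := (abs_lt.1 h2).1.le.trans hy.1
  obtain ⟨k1, k2, k3⟩ := h1 y ⟨y1, hy.2⟩
  have M0 : 0 < M := (abs_nonneg _).trans_lt k1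
  have K0 : 1 ≤ K := by linarith [sq_nonneg M]
  have hz := ar2 K0 k2 k3 h3 z2
  have y2 := hy.2
  have A1 : 1 * α ≤ (α - s - y) * α := mul_le_mul_of_nonneg_right (by linarith) (by linarith)
  have A2 : 1 * α ≤ (α - s + y) * α := mul_le_mul_of_nonneg_right (by linarith) (by linarith)
  rw [abs_le] at hz; rw [abs_lt] at k1
  refine ⟨α - s - y, μ δ y + z + (α - s - y) * α, α - s + y, μ δ y - z + (α - s + y) * α, α, δ,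
    by linarith, by linarith, by linarith, by linarith, by linarith, hδ, fun x => ?_⟩
  rw [← Ed, Ex]
  linear_combination z2 - x * z1

theorem result (P : Matrix (Fin 4) (Fin 4) SignType) (hP : ∀ i j, T i j ≠ 0 → P i j = T i j) :
    SpecArb P := by
  intro q hq hd
  obtain ⟨a, v, a', v', α, δ, h1, h2, h3, h4, h5, h6, h⟩ := core (q.coeff 3 / 2) (q.coeff 2)
    (q.coeff 1) (q.coeff 0) (P 0 2) (P 0 3) (P 1 2) (P 1 3) (P 2 0) (P 2 1) (P 3 0) (P 3 1)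
  refine ⟨!![a, 1, P 0 2, P 0 3; -v, -α, P 1 2, P 1 3; δ * P 2 0, δ * P 2 1, a', 1;
    δ * P 3 0, δ * P 3 1, -v', -α], fun i j => ?_, Polynomial.funext fun x => ?_⟩
  · have := hP i j
    have sg : ∀ t : SignType, SignType.sign (t : ℝ) = t := fun t => by cases t <;> simp
    fin_cases i <;> fin_cases j <;> simp [T] at this <;> simp [*, sign_mul, sign_pos]
  · rw [Matrix.eval_charpoly, eval_eq_sum_range, hd]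
    have h4 : q.coeff 4 = 1 := hd ▸ hq.coeff_natDegree
    simp only [Finset.sum_range_succ, Finset.sum_range_zero, h4]
    convert (det_eq ..).trans (h x) using 1
    · congr 1
      ext i j
      fin_cases i <;> fin_cases j <;> simp
    · ring

end Pool.Agent.Results.MP_b6277e_co.AllSAP
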